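import Mathlib
import Pool.Agent.H.MP_c355a0_ag.E

namespace Pool.Agent.Results.MP_c355a0_ag.Disproof

open MvPolynomial

/-- The dimension of the degree `i` part of `S / J`: the image in `S / J` of the forms of
degree `i`. -/
noncomputable def hilb {n : ℕ} (J : Ideal (MvPolynomial (Fin n) ℂ)) (i : ℕ) : ℕ :=
  Module.finrank ℂ ((homogeneousSubmodule (Fin n) ℂ i).map (Ideal.Quotient.mkₐ ℂ J).toLinearMap)

/-- The coefficient of `t ^ i` in the conjectured series `H_{n,d,k}`. -/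
def hcoef (n d k i : ℕ) : ℤ :=
  if i < d * k then ((i + n - 1).choose (n - 1) : ℤ)
  else if i = d * k then
    ((d * k + n - 1).choose (n - 1) : ℤ) - ((k + n).choose n : ℤ) +
      ((k - d ^ (n - 1) + n).choose n : ℤ)
  else 0

theorem hilb_ne_zero (n : ℕ) (hn : 307 ≤ n) (k : ℕ) (hk : 1 ≤ k)
    (f : Fin (n + 1) → MvPolynomial (Fin n) ℂ) (hf : ∀ j, (f j).IsHomogeneous 2) :
    hilb (Ideal.span (Set.range f) ^ k) (2 * k + 1) ≠ 0 := by
  obtain ⟨g, hg, hgI⟩ := Pool.Agent.H.MP_c355a0_ag.exists_not_mem n hn k hk f hf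
  intro h
  unfold hilb at h
  haveI : Module.Finite ℂ ((homogeneousSubmodule (Fin n) ℂ (2 * k + 1)).map
      (Ideal.Quotient.mkₐ ℂ (Ideal.span (Set.range f) ^ k)).toLinearMap) :=
    Module.Finite.iff_fg.mpr ((homogeneousSubmodule_fg (Fin n) ℂ (2 * k + 1)).map _)
  rw [Submodule.finrank_eq_zero] at h
  have h1 : (Ideal.Quotient.mkₐ ℂ (Ideal.span (Set.range f) ^ k)).toLinearMap g ∈
      (homogeneousSubmodule (Fin n) ℂ (2 * k + 1)).map
      (Ideal.Quotient.mkₐ ℂ (Ideal.span (Set.range f) ^ k)).toLinearMap :=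
    Submodule.mem_map_of_mem hg
  rw [h, Submodule.mem_bot] at h1
  exact hgI (Ideal.Quotient.eq_zero_iff_mem.mp h1)

theorem result :
    (∀ n : ℕ, 307 ≤ n → ∀ k : ℕ, 1 ≤ k → ∀ f : Fin (n + 1) → MvPolynomial (Fin n) ℂ,
      (∀ j, (f j).IsHomogeneous 2) → hilb (Ideal.span (Set.range f) ^ k) (2 * k + 1) ≠ 0) ∧
    ∃ n d k : ℕ, 1 ≤ n ∧ 1 ≤ d ∧ 1 ≤ k ∧ d ^ (n - 1) ≤ k ∧ (d, n) ≠ (2, 2) ∧
      ∀ f : Fin (n + 1) → MvPolynomial (Fin n) ℂ, (∀ j, (f j).IsHomogeneous d) →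
        ∃ i, (hilb (Ideal.span (Set.range f) ^ k) i : ℤ) ≠ hcoef n d k i := by
  refine ⟨hilb_ne_zero, ?_⟩
  have key : ∀ n : ℕ, 307 ≤ n → ∀ k : ℕ, 1 ≤ k →
      ∀ f : Fin (n + 1) → MvPolynomial (Fin n) ℂ, (∀ j, (f j).IsHomogeneous 2) →
        ∃ i, (hilb (Ideal.span (Set.range f) ^ k) i : ℤ) ≠ hcoef n 2 k i := by
    intro n hn k hk f hf
    refine ⟨2 * k + 1, ?_⟩
    rw [hcoef, if_neg (by omega), if_neg (by omega)]
    exact_mod_cast hilb_ne_zero n hn k hk f hf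
  obtain ⟨n, hn⟩ : ∃ n : ℕ, 307 ≤ n := ⟨307, le_rfl⟩
  refine ⟨n, 2, 2 ^ (n - 1), by omega, by omega, Nat.one_le_two_pow, le_rfl, ?_,
    key n hn _ Nat.one_le_two_pow⟩
  intro h
  have := congrArg Prod.snd h
  simp only at this
  omega

end Pool.Agent.Results.MP_c355a0_ag.Disproof
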